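import Pool.Agent.H77.ST.FRM

/-!
# The question of Tkachenko and Tkachuk is independent of ZFC

`Question` is Q1: for every Fréchet–Urysohn compact space `K`, every compact continuous image of
`C_p(K)` is metrizable. There are sentences `φ` (the ladder principle, a combinatorial statement
about `ω₁`) and `ψ` (Luzin's axiom `2^ω < 2^ω₁`) of the language of set theory such that

* if `φ` holds in the class of all sets (Mathlib's `ZFSet`) then the answer is negative, and if
  `ψ` holds there then the answer is positive;
* every countable model of ZFC has a generic extension which satisfies `ψ`, and it has a generic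
  extension of a generic extension which satisfies `φ`;
* every model of ZFC (of any size) yields countable models of ZFC + `φ` and of ZFC + `ψ`, and
  there is a countable model of ZFC.

So (by the completeness theorem, if ZFC is consistent) ZFC proves neither `¬ φ` nor `¬ ψ`.

The counterexample under `φ` is the one-point compactification of a space of the kind of Mrówka
and Isbell whose isolated points are `ω ∪ ω₁ × ω` and whose other points are the subsets `X` of
`ω₁`: the ladder principle gives reals `r X` and almost disjoint sets `g X` which code `X`, in such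
a way that a function on `K` with the trace `r X` on `ω` cannot vanish on the block `α`, and from
its values near the block one can read continuously whether `α ∈ X`.

The definitions used in the statement are in `Pool/Agent/H14/FRU/Core.lean` (the ladder
principle, Luzin's axiom, the question) and `Pool/Agent/H77/ST/FRD.lean` (formulas, `Holds`, ZFC,
generic extensions).
-/

namespace Pool.Agent.Results.MP_28859b_gt.Independence

open FRU ST.FR

/-- The question of Tkachenko and Tkachuk is independent of ZFC. -/
theorem result : ∃ φ ψ : ST.FR.Fml 0,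
    (∀ (V : Type 1) (e : V → V → Prop), (ST.FR.Holds e φ Fin.elim0 ↔ LadderPrinciple e) ∧
      (ST.FR.Holds e ψ Fin.elim0 ↔ LuzinAxiom e)) ∧
    (∀ (V : Type) (e : V → V → Prop), (ST.FR.Holds e φ Fin.elim0 ↔ LadderPrinciple e) ∧
      (ST.FR.Holds e ψ Fin.elim0 ↔ LuzinAxiom e)) ∧
    (ST.FR.Holds (fun x y : ZFSet.{0} => x ∈ y) φ Fin.elim0 → ¬ Question) ∧
    (ST.FR.Holds (fun x y : ZFSet.{0} => x ∈ y) ψ Fin.elim0 → Question) ∧
    (∀ (M : Type) (m : M → M → Prop), Countable M → ZFC m →
      (∃ (N₁ : Type) (e₁ : N₁ → N₁ → Prop) (i : M → N₁), ZFC e₁ ∧ IsGenExt m e₁ i ∧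
        ∃ (N : Type) (e : N → N → Prop) (j : N₁ → N), ZFC e ∧ IsGenExt e₁ e j ∧
          ST.FR.Holds e φ Fin.elim0) ∧
      ∃ (N : Type) (e : N → N → Prop) (i : M → N), ZFC e ∧ IsGenExt m e i ∧
        ST.FR.Holds e ψ Fin.elim0) ∧
    (∀ (M : Type) (m : M → M → Prop), ZFC m →
      (∃ (N : Type) (e : N → N → Prop), ZFC e ∧ Countable N ∧ ST.FR.Holds e φ Fin.elim0) ∧
      ∃ (N : Type) (e : N → N → Prop), ZFC e ∧ Countable N ∧ ST.FR.Holds e ψ Fin.elim0) ∧
    ∃ (M : Type) (m : M → M → Prop), ZFC m ∧ Countable M :=
  ST.FR.main

end Pool.Agent.Results.MP_28859b_gt.Independence
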