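import Mathlib
import Pool.Agent.H64.CpImages

/-!
# Compact continuous images of `C_p(X)` in ZFC

We prove (in ZFC): if every subset of cardinality at most `ℵ₁` of a Tychonoff space `X` is
contained in a Lindelöf subspace of weight at most `ℵ₁`, then every compact continuous image of
`C_p(X)` is metrizable.

The proof is in `Pool.Agent.H64.CpImages`. Outline.

* Every continuous real function on `C_p(X)` depends on countably many coordinates.
* If a compact continuous image `L` of `C_p(X)` is not metrizable, there are continuous functions
  `H a` (`a < ω₁`) on `L` such that every pattern of zeros and ones is attained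
  (`exists_independent`; Delta-system argument).
* If a set `A` of `ℵ₁` coordinates carries all the `H a`, and `A ⊆ Y` with `Y` Lindelöf of weight
  at most `ℵ₁`, then `C(X)` is the union of `ℵ₁` many sets none of which contains an
  uncountable discrete subset in the topology of pointwise convergence on `Y` (`exists_ctrl`,
  `ctrl_no_discrete`).
* A diagonalisation over a partition of the indices into `ℵ₁` uncountable pieces gives a
  pattern which is not attained (`main`).

The two corollaries below spell out what this says for Fréchet–Urysohn compacta.
-/

open Set Topology Cardinal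

namespace Pool.Agent.Results.MP_28859b_gt.SmallLindelof

universe u v

/-- If every subset of cardinality at most `ℵ₁` of the Tychonoff space `X` is contained in a
Lindelöf subspace of `X` of weight at most `ℵ₁`, then every compact Hausdorff continuous image of
`C_p(X)` is metrizable. -/
theorem result {X : Type u} [TopologicalSpace X] [T35Space X]
    (hX : ∀ A : Set X, #A ≤ ℵ₁ → ∃ Y : Set X, A ⊆ Y ∧ IsLindelof Y ∧
      ∃ B : Set (Set Y), TopologicalSpace.IsTopologicalBasis B ∧ #B ≤ ℵ₁)
    {L : Type v} [TopologicalSpace L] [CompactSpace L] [T2Space L]
    (φ : {f : X → ℝ // Continuous f} → L) (hφ : Continuous φ) (hs : Function.Surjective φ) :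
    TopologicalSpace.MetrizableSpace L :=
  Pool.Agent.H64.CpImages.main hX hφ hs

/-- The case of Fréchet–Urysohn compacta whose separable closed subspaces have
weight at most `ℵ₁` (in particular all Corson compacta and all Fréchet–Urysohn compacta of
weight at most `ℵ₁`). -/
theorem frechetUrysohn_case {K : Type u} [TopologicalSpace K] [CompactSpace K] [T2Space K]
    [FrechetUrysohnSpace K]
    (hK : ∀ C : Set K, C.Countable → ∃ B : Set (Set (closure C)),
      TopologicalSpace.IsTopologicalBasis B ∧ #B ≤ ℵ₁)
    {L : Type v} [TopologicalSpace L] [CompactSpace L] [T2Space L]
    (φ : {f : K → ℝ // Continuous f} → L) (hφ : Continuous φ) (hs : Function.Surjective φ) :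
    TopologicalSpace.MetrizableSpace L :=
  result (Pool.Agent.H64.CpImages.cond_of_frechet hK) φ hφ hs

/-- The case of first countable hereditarily Lindelöf compacta, i.e. of perfectly normal
compacta. -/
theorem hereditarilyLindelof_case {K : Type u} [TopologicalSpace K] [CompactSpace K] [T2Space K]
    [FirstCountableTopology K] [HereditarilyLindelofSpace K]
    {L : Type v} [TopologicalSpace L] [CompactSpace L] [T2Space L]
    (φ : {f : K → ℝ // Continuous f} → L) (hφ : Continuous φ) (hs : Function.Surjective φ) :
    TopologicalSpace.MetrizableSpace L :=
  result Pool.Agent.H64.CpImages.cond_of_hereditarilyLindelof φ hφ hs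

end Pool.Agent.Results.MP_28859b_gt.SmallLindelof
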